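import Pool.Agent.Y993.HP.Stm

/-!
# Adding one point
-/

set_option autoImplicit false

namespace Pool.Agent.Y151.HP

open Finset Pool.Agent.Y993.HP

theorem mm_pos {k n : ℕ} (hn : 1 ≤ n) : 0 < mm k n :=
  Real.rpow_pos_of_pos (by exact_mod_cast hn) _

theorem pow_le_mm {k n s : ℕ} (hn : 1 ≤ n) (hs : s ≤ k + 1) :
    (n : ℝ) ^ (k - s) ≤ mm k n ^ (k + 1 - s) := by
  rcases Nat.lt_or_ge k s with h | h
  · have h1 : s = k + 1 := by omega
    subst h1
    simp
  · have hn' : (1 : ℝ) ≤ n := by exact_mod_cast hn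
    rw [mm, ← Real.rpow_natCast, ← Real.rpow_natCast, ← Real.rpow_mul (by positivity)]
    apply Real.rpow_le_rpow_of_exponent_le hn'
    rw [Nat.cast_sub h, Nat.cast_sub hs]
    push_cast
    rw [div_mul_eq_mul_div, le_div_iff₀ (by positivity)]
    have : (0 : ℝ) ≤ s := by positivity
    nlinarith

theorem sd_nonneg {d N : ℕ} (I : Fin d → Finset (Fin N)) (i : Fin d) : 0 ≤ sd I i := by
  unfold sd
  positivity

theorem PB_insert {d n N : ℕ} (I : Fin d → Finset (Fin N)) (B : Finset (Pt d n)) (q : Pt d n) :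
    PB I (insert q B) = PB I B *
      ∏ i ∈ (univ.filter (fun i => q i ∈ B.image (fun p => p i)))ᶜ, sd I i := by
  have h0 : ∏ i ∈ (univ.filter (fun i => q i ∈ B.image (fun p => p i)))ᶜ, sd I i =
      ∏ i, if q i ∈ B.image (fun p => p i) then 1 else sd I i := by
    rw [Finset.compl_filter, Finset.prod_filter]
    refine Finset.prod_congr rfl fun i _ => ?_
    by_cases h : q i ∈ B.image (fun p => p i)
    · rw [if_neg (not_not.2 h), if_pos h]
    · rw [if_pos h, if_neg h]
  rw [h0]
  unfold PB
  rw [← Finset.prod_mul_distrib]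
  refine Finset.prod_congr rfl fun i _ => ?_
  rw [Finset.image_insert]
  by_cases h : q i ∈ B.image (fun p => p i)
  · rw [Finset.insert_eq_of_mem h, if_pos h, mul_one]
  · rw [Finset.card_insert_of_notMem h, if_neg h, pow_succ]

theorem count_le (h : S_CARD) {k n : ℕ} (A B : Finset (Pt (k + 1) n)) (hn : 1 ≤ n)
    (hA : IsPerm A) (T : Finset (Fin (k + 1))) :
    (A.filter (fun q => ∀ i ∈ T, q i ∈ B.image (fun p => p i))).card ≤
      B.card ^ T.card * n ^ (k - T.card) := by
  have : NeZero n := ⟨by omega⟩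
  let t : Finset (Pt (k + 1) n) :=
    Fintype.piFinset (fun i => if i ∈ T then B.image (fun p => p i) else {0})
  let f : Pt (k + 1) n → Pt (k + 1) n := fun q i => if i ∈ T then q i else 0
  have hcard : t.card ≤ B.card ^ T.card := by
    show (Fintype.piFinset (fun i => if i ∈ T then B.image (fun p => p i) else {0})).card ≤ _
    rw [Fintype.card_piFinset]
    calc ∏ i, (if i ∈ T then B.image (fun p => p i) else {0}).card
        = ∏ i, (if i ∈ T then (B.image (fun p => p i)).card else 1) := by
          refine Finset.prod_congr rfl fun i _ => ?_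
          split_ifs
          · rfl
          · exact card_singleton _
      _ = ∏ i ∈ T, (B.image (fun p => p i)).card := by
          rw [Finset.prod_ite_mem, univ_inter]
      _ ≤ B.card ^ T.card := Finset.prod_le_pow_card _ _ _ fun i _ => card_image_le
  refine (Finset.card_le_mul_card_image_of_maps_to (f := f) (t := t) ?_ (n ^ (k - T.card))
    ?_).trans ?_
  · intro q hq
    rw [mem_filter] at hq
    rw [Fintype.mem_piFinset]
    intro i
    by_cases hi : i ∈ T
    · simp only [f, if_pos hi]
      exact hq.2 i hi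
    · simp only [f, if_neg hi, mem_singleton]
  · intro α _
    refine (card_le_card ?_).trans ((h k n A hn hA).2 T α)
    intro q hq
    rw [mem_filter, mem_filter] at hq
    rw [mem_filter]
    refine ⟨hq.1.1, fun i hi => ?_⟩
    have := congrFun hq.2 i
    simpa only [f, if_pos hi] using this
  · rw [mul_comm]
    exact Nat.mul_le_mul_right _ hcard

/-- Adding one point. -/
theorem add1 (h : S_CARD) : S_ADD := by
  intro k n N C A B I hn hN hC hA hBA hsd
  have hm : 0 < mm k n := mm_pos hn
  have hPB0 : 0 ≤ PB I B := Finset.prod_nonneg fun i _ => pow_nonneg (sd_nonneg I i) _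
  let S : Pt (k + 1) n → Finset (Fin (k + 1)) := fun q =>
    univ.filter (fun i => q i ∈ B.image (fun p => p i))
  have key : ∀ T : Finset (Fin (k + 1)), ∑ q ∈ A.filter (fun q => S q = T), ∏ i ∈ (S q)ᶜ, sd I i ≤
      (B.card : ℝ) ^ T.card * C ^ (k + 1 - T.card) := by
    intro T
    have hT : T.card ≤ k + 1 := by
      have := card_le_univ T
      rwa [Fintype.card_fin] at this
    have e1 : ∑ q ∈ A.filter (fun q => S q = T), ∏ i ∈ (S q)ᶜ, sd I i =
        ((A.filter (fun q => S q = T)).card : ℝ) * ∏ i ∈ Tᶜ, sd I i := by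
      rw [← nsmul_eq_mul, ← Finset.sum_const]
      refine Finset.sum_congr rfl fun q hq => ?_
      rw [(mem_filter.1 hq).2]
    have e2 : ((A.filter (fun q => S q = T)).card : ℝ) ≤
        (B.card : ℝ) ^ T.card * (n : ℝ) ^ (k - T.card) := by
      have h1 : (A.filter (fun q => S q = T)).card ≤
          (A.filter (fun q => ∀ i ∈ T, q i ∈ B.image (fun p => p i))).card := by
        apply card_le_card
        intro q hq
        rw [mem_filter] at hq ⊢
        refine ⟨hq.1, fun i hi => ?_⟩
        rw [← hq.2] at hi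
        exact (mem_filter.1 hi).2
      exact_mod_cast h1.trans (count_le h A B hn hA T)
    have e3 : ∏ i ∈ Tᶜ, sd I i ≤ (C / mm k n) ^ (k + 1 - T.card) := by
      have h1 : (Tᶜ).card = k + 1 - T.card := by rw [card_compl, Fintype.card_fin]
      rw [← h1, ← Finset.prod_const]
      refine Finset.prod_le_prod (fun i _ => sd_nonneg I i) fun i _ => ?_
      rw [le_div_iff₀ hm]
      exact hsd i
    rw [e1]
    calc ((A.filter (fun q => S q = T)).card : ℝ) * ∏ i ∈ Tᶜ, sd I i
        ≤ ((B.card : ℝ) ^ T.card * (n : ℝ) ^ (k - T.card)) * (C / mm k n) ^ (k + 1 - T.card) :=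
          mul_le_mul e2 e3 (Finset.prod_nonneg fun i _ => sd_nonneg I i) (by positivity)
      _ ≤ ((B.card : ℝ) ^ T.card * mm k n ^ (k + 1 - T.card)) *
          (C / mm k n) ^ (k + 1 - T.card) := by
          refine mul_le_mul_of_nonneg_right (mul_le_mul_of_nonneg_left (pow_le_mm hn hT) ?_) ?_
          · positivity
          · positivity
      _ = (B.card : ℝ) ^ T.card * C ^ (k + 1 - T.card) := by
          rw [mul_assoc, ← mul_pow, mul_div_cancel₀ _ hm.ne']
  calc ∑ q ∈ A, PB I (insert q B) = PB I B * ∑ q ∈ A, ∏ i ∈ (S q)ᶜ, sd I i := by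
        rw [Finset.mul_sum]
        exact Finset.sum_congr rfl fun q _ => PB_insert I B q
    _ = PB I B * ∑ T : Finset (Fin (k + 1)),
          ∑ q ∈ A.filter (fun q => S q = T), ∏ i ∈ (S q)ᶜ, sd I i := by
        rw [Finset.sum_fiberwise]
    _ ≤ PB I B * ∑ T : Finset (Fin (k + 1)), (B.card : ℝ) ^ T.card * C ^ (k + 1 - T.card) :=
        mul_le_mul_of_nonneg_left (Finset.sum_le_sum fun T _ => key T) hPB0
    _ = ((B.card : ℝ) + C) ^ (k + 1) * PB I B := by
        have := Fintype.sum_pow_mul_eq_add_pow (Fin (k + 1)) (B.card : ℝ) C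
        rw [Fintype.card_fin] at this
        rw [this, mul_comm]

end Pool.Agent.Y151.HP
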