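import Pool.Agent.Y151.HP.Add

/-!
# The mean number of generic `j`-subsets in a box
-/

set_option autoImplicit false

namespace Pool.Agent.Y151.HP

open Finset Pool.Agent.Y993.HP

open Classical in
/-- The generic `j`-subsets of `A`. -/
noncomputable def gs {d n : ℕ} (A : Finset (Pt d n)) (j : ℕ) : Finset (Finset (Pt d n)) :=
  (A.powersetCard j).filter (fun T => Gen T)

theorem gen_mono {d n : ℕ} {S T : Finset (Pt d n)} (h : S ⊆ T) (hT : Gen T) : Gen S :=
  fun p hp q hq hpq i => hT p (h hp) q (h hq) hpq i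

open Classical in
theorem mem_gs {d n : ℕ} {A T : Finset (Pt d n)} {j : ℕ} :
    T ∈ gs A j ↔ (T ⊆ A ∧ T.card = j) ∧ Gen T := by
  unfold gs
  rw [mem_filter, mem_powersetCard]

theorem gs_zero {d n : ℕ} (A : Finset (Pt d n)) : (gs A 0).card = 1 := by
  have : gs A 0 = {∅} := by
    ext T
    rw [mem_gs, mem_singleton]
    constructor
    · rintro ⟨⟨_, h⟩, _⟩
      exact card_eq_zero.1 h
    · rintro rfl
      exact ⟨⟨empty_subset _, card_empty⟩, fun p hp => absurd hp (notMem_empty _)⟩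
  rw [this, card_singleton]

/-- Number of extensions of a generic subset by one point. -/
theorem ext_card {d n : ℕ} {A T : Finset (Pt d n)} {j : ℕ} (hT : T ∈ gs A j) :
    ((gs A (j + 1)).filter (fun T' => T ⊆ T')).card =
      ((A \ T).filter (fun q => insert q T ∈ gs A (j + 1))).card := by
  symm
  apply Finset.card_bij (fun q _ => insert q T)
  · intro q hq
    rw [mem_filter] at hq ⊢
    exact ⟨hq.2, subset_insert _ _⟩
  · intro q hq q' hq' he
    rw [mem_filter, mem_sdiff] at hq hq'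
    have h1 : q ∈ insert q' T := by
      rw [← he]
      exact mem_insert_self _ _
    rcases mem_insert.1 h1 with h | h
    · exact h
    · exact absurd h hq.1.2
  · intro T' hT'
    rw [mem_filter] at hT'
    have h1 := (mem_gs.1 hT).1.2
    have h2 := mem_gs.1 hT'.1
    obtain ⟨q, hq, he⟩ := Finset.exists_eq_insert_iff.2 ⟨hT'.2, by rw [h1, h2.1.2]⟩
    refine ⟨q, ?_, he⟩
    rw [mem_filter, mem_sdiff]
    refine ⟨⟨h2.1.1 (by rw [← he]; exact mem_insert_self _ _), hq⟩, ?_⟩
    rw [he]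
    exact hT'.1

theorem sub_card {d n : ℕ} {A T' : Finset (Pt d n)} {j : ℕ} (hT : T' ∈ gs A (j + 1)) :
    ((gs A j).filter (fun T => T ⊆ T')).card = j + 1 := by
  have h2 := mem_gs.1 hT
  have : (gs A j).filter (fun T => T ⊆ T') = T'.powersetCard j := by
    ext T
    rw [mem_filter, mem_gs, mem_powersetCard]
    constructor
    · rintro ⟨⟨⟨_, h⟩, _⟩, h'⟩
      exact ⟨h', h⟩
    · rintro ⟨h, h'⟩
      exact ⟨⟨⟨h.trans h2.1.1, h'⟩, gen_mono h h2.2⟩, h⟩
  rw [this, card_powersetCard, h2.1.2, Nat.choose_succ_self_right]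

/-- Double counting. -/
theorem double {d n : ℕ} (A : Finset (Pt d n)) (j : ℕ) :
    (j + 1) * (gs A (j + 1)).card =
      ∑ T ∈ gs A j, ((A \ T).filter (fun q => insert q T ∈ gs A (j + 1))).card := by
  have h := Finset.sum_card_bipartiteAbove_eq_sum_card_bipartiteBelow
    (s := gs A j) (t := gs A (j + 1)) (fun T T' => T ⊆ T')
  have h1 : ∑ T' ∈ gs A (j + 1), ((gs A j).filter (fun T => T ⊆ T')).card =
      (j + 1) * (gs A (j + 1)).card := by
    rw [Finset.sum_congr rfl fun T' hT' => sub_card hT', Finset.sum_const, smul_eq_mul, mul_comm]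
  have h2 : ∑ T ∈ gs A j, ((gs A (j + 1)).filter (fun T' => T ⊆ T')).card =
      ∑ T ∈ gs A j, ((A \ T).filter (fun q => insert q T ∈ gs A (j + 1))).card :=
    Finset.sum_congr rfl fun T hT => ext_card hT
  rw [← h1, ← h2]
  exact h.symm

theorem upper (h : S_CARD) {k n : ℕ} {A : Finset (Pt (k + 1) n)} (hn : 1 ≤ n) (hA : IsPerm A)
    (j : ℕ) : (j + 1) * (gs A (j + 1)).card ≤ n ^ k * (gs A j).card := by
  rw [double, mul_comm (n ^ k), ← smul_eq_mul (gs A j).card, ← Finset.sum_const]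
  refine Finset.sum_le_sum fun T _ => ?_
  rw [← (h k n A hn hA).1]
  exact card_le_card ((filter_subset _ _).trans sdiff_subset)

theorem lower (h : S_CARD) {k n : ℕ} {A : Finset (Pt (k + 1) n)} (hn : 1 ≤ n) (hA : IsPerm A)
    (j : ℕ) : n ^ k * (gs A j).card ≤
      (j + 1) * (gs A (j + 1)).card + (j * ((k + 1) * n ^ (k - 1))) * (gs A j).card := by
  rw [double]
  have h1 : ∀ T ∈ gs A j, n ^ k ≤
      ((A \ T).filter (fun q => insert q T ∈ gs A (j + 1))).card + j * ((k + 1) * n ^ (k - 1)) := by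
    intro T hT
    have hT' := mem_gs.1 hT
    have hsub : A ⊆ ((A \ T).filter (fun q => insert q T ∈ gs A (j + 1))) ∪
        T.biUnion (fun p => univ.biUnion fun i => A.filter (fun q => ∀ l ∈ ({i} : Finset (Fin (k + 1))), q l = p l)) := by
      intro q hq
      rw [mem_union]
      by_cases hqT : q ∈ T
      · right
        rw [mem_biUnion]
        refine ⟨q, hqT, ?_⟩
        rw [mem_biUnion]
        refine ⟨0, mem_univ _, ?_⟩
        rw [mem_filter]
        exact ⟨hq, fun l _ => rfl⟩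
      · by_cases hg : ∃ p ∈ T, ∃ i, q i = p i
        · right
          obtain ⟨p, hp, i, hi⟩ := hg
          rw [mem_biUnion]
          refine ⟨p, hp, ?_⟩
          rw [mem_biUnion]
          refine ⟨i, mem_univ _, ?_⟩
          rw [mem_filter]
          refine ⟨hq, fun l hl => ?_⟩
          rw [mem_singleton.1 hl, hi]
        · left
          push Not at hg
          rw [mem_filter, mem_sdiff, mem_gs]
          refine ⟨⟨hq, hqT⟩, ⟨insert_subset hq hT'.1.1, ?_⟩, ?_⟩
          · rw [card_insert_of_notMem hqT, hT'.1.2]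
          · intro p hp p' hp' hne i
            rcases mem_insert.1 hp with h3 | h3
            · rcases mem_insert.1 hp' with h4 | h4
              · exact absurd (h3.trans h4.symm) hne
              · rw [h3]
                exact hg p' h4 i
            · rcases mem_insert.1 hp' with h4 | h4
              · rw [h4]
                exact fun he => hg p h3 i he.symm
              · exact hT'.2 p h3 p' h4 hne i
    have h2 := (card_le_card hsub).trans (card_union_le _ _)
    rw [(h k n A hn hA).1] at h2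
    refine h2.trans (Nat.add_le_add_left ?_ _)
    refine (card_biUnion_le_card_mul _ _ ((k + 1) * n ^ (k - 1)) fun p _ => ?_).trans ?_
    · refine (card_biUnion_le_card_mul _ _ (n ^ (k - 1)) fun i _ => ?_).trans ?_
      · have := (h k n A hn hA).2 {i} p
        rwa [card_singleton] at this
      · rw [card_univ, Fintype.card_fin]
    · rw [hT'.1.2]
  calc n ^ k * (gs A j).card = ∑ T ∈ gs A j, n ^ k := by
        rw [Finset.sum_const, smul_eq_mul, mul_comm]
    _ ≤ ∑ T ∈ gs A j, (((A \ T).filter (fun q => insert q T ∈ gs A (j + 1))).card +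
          j * ((k + 1) * n ^ (k - 1))) := Finset.sum_le_sum h1
    _ = _ := by rw [Finset.sum_add_distrib, Finset.sum_const, smul_eq_mul, mul_comm (gs A j).card]

/-- The number of generic `j`-subsets. -/
theorem gs_bound (h : S_CARD) {k n : ℕ} {A : Finset (Pt (k + 1) n)} (hk : 1 ≤ k) (hn : 1 ≤ n)
    (hA : IsPerm A) (j : ℕ) :
    (j.factorial : ℝ) * (gs A j).card ≤ ((n : ℝ) ^ k) ^ j ∧
    ((n : ℝ) ^ k) ^ j * (1 - (k + 1) * (j : ℝ) ^ 2 / n) ≤ (j.factorial : ℝ) * (gs A j).card := by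
  have hn' : (0 : ℝ) < n := by exact_mod_cast hn
  induction j with
  | zero => simp [gs_zero]
  | succ j ih =>
    obtain ⟨ih1, ih2⟩ := ih
    have hu : ((j : ℝ) + 1) * (gs A (j + 1)).card ≤ (n : ℝ) ^ k * (gs A j).card := by
      exact_mod_cast upper h hn hA j
    have hl : (n : ℝ) ^ k * (gs A j).card ≤
        ((j : ℝ) + 1) * (gs A (j + 1)).card + (j * ((k + 1) * (n : ℝ) ^ (k - 1))) * (gs A j).card := by
      exact_mod_cast lower h hn hA j
    have hf : (0 : ℝ) ≤ (j.factorial : ℝ) := by positivity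
    have hpk : (0 : ℝ) < (n : ℝ) ^ k := by positivity
    have hkk : (n : ℝ) ^ (k - 1) * n = (n : ℝ) ^ k := by
      rw [← pow_succ]
      congr 1
      omega
    rw [Nat.factorial_succ]
    push_cast
    constructor
    · calc ((j : ℝ) + 1) * j.factorial * (gs A (j + 1)).card
          = j.factorial * (((j : ℝ) + 1) * (gs A (j + 1)).card) := by ring
        _ ≤ j.factorial * ((n : ℝ) ^ k * (gs A j).card) := mul_le_mul_of_nonneg_left hu hf
        _ = (n : ℝ) ^ k * (j.factorial * (gs A j).card) := by ring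
        _ ≤ (n : ℝ) ^ k * ((n : ℝ) ^ k) ^ j := mul_le_mul_of_nonneg_left ih1 hpk.le
        _ = ((n : ℝ) ^ k) ^ (j + 1) := by rw [pow_succ]; ring
    · have e1 : (j.factorial : ℝ) * ((j * ((k + 1) * (n : ℝ) ^ (k - 1))) * (gs A j).card) ≤
          (j * ((k + 1) * (n : ℝ) ^ (k - 1))) * ((n : ℝ) ^ k) ^ j := by
        calc (j.factorial : ℝ) * ((j * ((k + 1) * (n : ℝ) ^ (k - 1))) * (gs A j).card)
            = (j * ((k + 1) * (n : ℝ) ^ (k - 1))) * (j.factorial * (gs A j).card) := by ring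
          _ ≤ _ := mul_le_mul_of_nonneg_left ih1 (by positivity)
      have e2 := mul_le_mul_of_nonneg_left hl hf
      have e3 := mul_le_mul_of_nonneg_left ih2 hpk.le
      have e4 : ((n : ℝ) ^ k) ^ (j + 1) * (1 - (k + 1) * ((j : ℝ) + 1) ^ 2 / n) ≤
          (n : ℝ) ^ k * (((n : ℝ) ^ k) ^ j * (1 - (k + 1) * (j : ℝ) ^ 2 / n)) -
            (j * ((k + 1) * (n : ℝ) ^ (k - 1))) * ((n : ℝ) ^ k) ^ j := by
        have e5 : (n : ℝ) ^ (k - 1) = (n : ℝ) ^ k / n := by
          rw [← hkk, mul_div_cancel_right₀ _ hn'.ne']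
        have e6 : (n : ℝ) ^ k * (((n : ℝ) ^ k) ^ j * (1 - (k + 1) * (j : ℝ) ^ 2 / n)) -
            (j * ((k + 1) * (n : ℝ) ^ (k - 1))) * ((n : ℝ) ^ k) ^ j =
            ((n : ℝ) ^ k) ^ (j + 1) * (1 - ((k + 1) * (j : ℝ) ^ 2 + j * (k + 1)) / n) := by
          rw [e5, pow_succ]
          field_simp
          ring
        rw [e6]
        apply mul_le_mul_of_nonneg_left _ (by positivity)
        apply sub_le_sub_left
        apply div_le_div_of_nonneg_right _ hn'.le
        have : (0 : ℝ) ≤ (k + 1) * ((j : ℝ) + 1) := by positivity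
        nlinarith
      have e7 : ((j : ℝ) + 1) * j.factorial * (gs A (j + 1)).card =
          j.factorial * (((j : ℝ) + 1) * (gs A (j + 1)).card) := by ring
      rw [e7]
      have e8 : (j.factorial : ℝ) * ((n : ℝ) ^ k * (gs A j).card) =
          (n : ℝ) ^ k * (j.factorial * (gs A j).card) := by ring
      rw [mul_add, e8] at e2
      linarith

theorem PB_gen {d n N : ℕ} (I : Fin d → Finset (Fin N)) {A T : Finset (Pt d n)} {j : ℕ}
    (hT : T ∈ gs A j) : PB I T = wt I ^ j := by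
  have h := mem_gs.1 hT
  unfold PB wt
  rw [← Finset.prod_pow]
  refine Finset.prod_congr rfl fun i _ => ?_
  rw [card_image_of_injOn, h.1.2]
  intro p hp q hq he
  by_contra hne
  exact h.2 p hp q hq hne i he

open Classical in
theorem Ex_Mj (h : S_PROB) {d n N : ℕ} (A : Finset (Pt d n)) (I : Fin d → Finset (Fin N))
    (hN : 0 < N) (j : ℕ) :
    Ex (fun u : Lab d n N => (Mj A I j u : ℝ)) = (gs A j).card * wt I ^ j := by
  have h1 : ∀ u : Lab d n N, (Mj A I j u : ℝ) =
      ∑ T ∈ gs A j, if T ⊆ pts A I u then (1 : ℝ) else 0 := by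
    intro u
    rw [Finset.sum_boole]
    unfold Mj
    congr 2
    ext T
    rw [mem_filter, mem_filter, mem_gs, mem_powersetCard]
    constructor
    · rintro ⟨⟨h1, h2⟩, h3⟩
      refine ⟨⟨⟨h1.trans ?_, h2⟩, h3⟩, h1⟩
      unfold pts
      exact filter_subset _ _
    · rintro ⟨⟨⟨_, h2⟩, h3⟩, h1⟩
      exact ⟨⟨h1, h2⟩, h3⟩
  have h2 : Ex (fun u : Lab d n N => (Mj A I j u : ℝ)) =
      ∑ T ∈ gs A j, Pr (fun u : Lab d n N => T ⊆ pts A I u) := by
    unfold Pr Ex
    simp only [h1]
    rw [Finset.sum_comm, Finset.sum_div]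
    refine Finset.sum_congr rfl fun T _ => ?_
    congr 1
    refine Finset.sum_congr rfl fun u _ => ?_
    by_cases hh : T ⊆ pts A I u
    · rw [if_pos hh, if_pos hh]
    · rw [if_neg hh, if_neg hh]
  rw [h2, Finset.sum_congr rfl fun T hT => by
    rw [h d n N A T I hN (mem_gs.1 hT).1.1, PB_gen I hT], Finset.sum_const, nsmul_eq_mul]

/-- The mean number of generic `j`-subsets in a box. -/
theorem gen1 (h1 : S_CARD) (h2 : S_PROB) : S_GEN := by
  intro k j C hk hC
  refine ⟨(C ^ (k + 1)) ^ j * ((k + 1) * (j : ℝ) ^ 2), by positivity, ?_⟩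
  intro n N A I hn hN hA hsd
  have hn' : (0 : ℝ) < n := by exact_mod_cast hn
  have hm : 0 < mm k n := mm_pos hn
  have hw0 : 0 ≤ wt I := Finset.prod_nonneg fun i _ => sd_nonneg I i
  have hmm : mm k n ^ (k + 1) = (n : ℝ) ^ k := by
    rw [mm, ← Real.rpow_natCast, ← Real.rpow_mul hn'.le, ← Real.rpow_natCast]
    congr 1
    push_cast
    field_simp
  have hw : (n : ℝ) ^ k * wt I ≤ C ^ (k + 1) := by
    have e1 : (n : ℝ) ^ k * wt I = ∏ i, sd I i * mm k n := by
      rw [Finset.prod_mul_distrib, Finset.prod_const, card_univ, Fintype.card_fin, hmm, mul_comm]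
      rfl
    rw [e1]
    calc ∏ i, sd I i * mm k n ≤ ∏ _i : Fin (k + 1), C :=
          Finset.prod_le_prod (fun i _ => mul_nonneg (sd_nonneg I i) hm.le) fun i _ => hsd i
      _ = C ^ (k + 1) := by rw [Finset.prod_const, card_univ, Fintype.card_fin]
  have hw' : ((n : ℝ) ^ k * wt I) ^ j ≤ (C ^ (k + 1)) ^ j :=
    pow_le_pow_left₀ (by positivity) hw j
  obtain ⟨b1, b2⟩ := gs_bound h1 hk hn hA j
  rw [Ex_Mj h2 A I hN j]
  have hf : (1 : ℝ) ≤ (j.factorial : ℝ) := by exact_mod_cast Nat.factorial_pos j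
  have hwj : 0 ≤ wt I ^ j := pow_nonneg hw0 j
  have e1 : ((gs A j).card : ℝ) * wt I ^ j - ((n : ℝ) ^ k * wt I) ^ j / (j.factorial : ℝ) =
      -((((n : ℝ) ^ k) ^ j - (j.factorial : ℝ) * (gs A j).card) * wt I ^ j / (j.factorial : ℝ)) := by
    rw [mul_pow]
    field_simp
    ring
  rw [e1, abs_neg, abs_of_nonneg (div_nonneg (mul_nonneg (by linarith) hwj) (by linarith))]
  calc (((n : ℝ) ^ k) ^ j - (j.factorial : ℝ) * (gs A j).card) * wt I ^ j / (j.factorial : ℝ)
      ≤ (((n : ℝ) ^ k) ^ j - (j.factorial : ℝ) * (gs A j).card) * wt I ^ j :=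
        div_le_self (mul_nonneg (by linarith) hwj) hf
    _ ≤ (((n : ℝ) ^ k) ^ j * ((k + 1) * (j : ℝ) ^ 2 / n)) * wt I ^ j := by
        apply mul_le_mul_of_nonneg_right _ hwj
        linarith
    _ = ((n : ℝ) ^ k * wt I) ^ j * (((k + 1) * (j : ℝ) ^ 2) / n) := by
        rw [mul_pow]
        ring
    _ ≤ (C ^ (k + 1)) ^ j * (((k + 1) * (j : ℝ) ^ 2) / n) :=
        mul_le_mul_of_nonneg_right hw' (by positivity)
    _ = (C ^ (k + 1)) ^ j * ((k + 1) * (j : ℝ) ^ 2) / n := by ring

end Pool.Agent.Y151.HP
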